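import Pool.Agent.Q87.WRotMain

/-!
# MP_e40715, Q1: weighted translation operators on `L^p([0,1])` are never hypercyclic

`T f (x) = φ(x) f({x+α})`.  For a hypercyclic vector `f` of `T` let `F(u,v)` be the set of angles
`θ` such that `(v,θ)` is a limit of `(Tⁿ u, n α)`.  If `0 ∈ F(u,v)` then, by the cross identity
`Tⁿ(Tu)(x) u(x+nα) = Tⁿu(x) (Tu)(x+nα)` and ergodicity, `v` is a multiple of `u`.  `F(f,f)` is a
closed subgroup `K` of the circle and `c ↦ F(f, f + c T f)` is an injective continuous map of the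
plane into the quotient of the circle by `K`; this is impossible.  For rational `α` a power of `T`
is a multiplication operator.
-/

set_option autoImplicit false

open Set MeasureTheory
open scoped ENNReal

namespace Pool.Agent.Results.MP_e40715_an.NeverHypercyclic

/-- Lebesgue measure on `[0,1]`. -/
noncomputable abbrev leb : Measure ℝ := (volume : Measure ℝ).restrict (Icc 0 1)

/-- `T` is the weighted translation operator `T_{φ,α}` on `L^p([0,1])`:
for every `f`, `T f (x) = φ(x) f({x+α})` for a.e. `x ∈ [0,1]`. -/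
def IsWeightedTranslation (p : ℝ≥0∞) (φ : ℝ → ℂ) (α : ℝ) (T : Lp ℂ p leb → Lp ℂ p leb) : Prop :=
  ∀ f : Lp ℂ p leb, ∀ᵐ x ∂leb, T f x = φ x * f (Int.fract (x + α))

/-- **Theorem.** For `1 ≤ p < ∞`, every weight `φ` and every `α`, the (bounded, that is continuous)
operator `T_{φ,α}` is not hypercyclic on `L^p([0,1])`: no orbit `{Tⁿ f : n ≥ 0}` is dense. -/
theorem result (p : ℝ≥0∞) [Fact (1 ≤ p)] (hp : p ≠ ∞) (φ : ℝ → ℂ) (α : ℝ)
    (T : Lp ℂ p leb → Lp ℂ p leb) (hc : Continuous T) (hT : IsWeightedTranslation p φ α T) :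
    ¬ ∃ f : Lp ℂ p leb, Dense (range fun n : ℕ => T^[n] f) := by
  rintro ⟨f, hf⟩
  set L : Lp ℂ p leb →L[ℂ] Lp ℂ p leb :=
    { toFun := T
      map_add' := by
        intro u v
        apply Lp.ext
        have e1 : ∀ᵐ x ∂leb, (u + v : Lp ℂ p leb) (Int.fract (x + α)) =
            u (Int.fract (x + α)) + v (Int.fract (x + α)) :=
          Q87.WRot.qmp_fract α |>.ae_eq_comp (Lp.coeFn_add u v)
        filter_upwards [hT (u + v), hT u, hT v, Lp.coeFn_add (T u) (T v), e1]
          with x h1 h2 h3 h4 h5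
        rw [h1, h4, Pi.add_apply, h2, h3, h5]; ring
      map_smul' := by
        intro c u
        apply Lp.ext
        have e1 : ∀ᵐ x ∂leb, (c • u : Lp ℂ p leb) (Int.fract (x + α)) =
            c * u (Int.fract (x + α)) :=
          Q87.WRot.qmp_fract α |>.ae_eq_comp (Lp.coeFn_smul c u)
        filter_upwards [hT (c • u), hT u, Lp.coeFn_smul c (T u), e1] with x h1 h2 h4 h5
        rw [RingHom.id_apply, h1, h4, Pi.smul_apply, h2, h5, smul_eq_mul]; ring
      cont := hc } with hL
  refine Q87.WRot.interval_main hp φ α L hT f ?_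
  have h1 : (fun n : ℕ => (L ^ n) f) = fun n : ℕ => T^[n] f := by
    funext n
    induction n with
    | zero => rfl
    | succ n ih =>
      show (L ^ (n + 1)) f = T^[n + 1] f
      rw [pow_succ', mul_apply_eq_comp, Function.iterate_succ_apply', ← ih]
      rfl
  rw [h1]; exact hf

end Pool.Agent.Results.MP_e40715_an.NeverHypercyclic
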